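import Mathlib
import Pool.Agent.Q17.CCl.Defs
import Pool.Agent.Q17.CCl.Rees

/-!
An ideally `C`-closed semigroup that is not projectively `C`-closed, for every class `C` between
the Hausdorff zero-dimensional and the `T₁` topological semigroups.
-/

namespace Pool.Agent.Results.MP_4caafd_al

open Q17.CCl

universe u

/-- There is a semigroup `X` that, for every class `C` of topological semigroups with
`T_zS ⊆ C ⊆ T_1S`, is ideally `C`-closed but not projectively `C`-closed. -/
theorem IdeallyNotProjectively.result :
    ∃ (X : Type) (_ : Semigroup X), ∀ C : SemiClass.{u},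
      (∀ Y t s, TzS Y t s → C Y t s) → (∀ Y t s, C Y t s → T1S Y t s) →
        IdeallyClosed C X ∧ ¬ ProjectivelyClosed C X :=
  ⟨RM, inferInstance, fun C h1 h2 => ⟨ideally_closed C h2, not_projectively_closed C h1⟩⟩

end Pool.Agent.Results.MP_4caafd_al
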